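import Mathlib
import Pool.Agent.R261.SF.PhiB

/-!
# MP_d583b7_an, Q2: a negative answer

Q2 asks whether every linear `φ : B(X) → B(X)` that preserves the semi-Fredholm operators in both
directions and is surjective up to compact operators has form (SF), for every
infinite-dimensional complex Banach space `X`.  The answer is no, already for `X = ℓ¹ × ℓ^∞`.

Let `T(y,z) = (0,y)` and `φ(A) = A + f(A) T` for a functional `f` with `f(T) = 0`.
`T` and its adjoint are dominated by the inclusion `ℓ¹ → ℓ^∞`, which is finitely strictly singular,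
so that adding multiples of `T` changes neither the upper nor the lower semi-Fredholm operators;
but `T` is not compact.
-/

set_option autoImplicit false

open scoped ENNReal

namespace Pool.Agent.Results.MP_d583b7_an.SemiFredholmPreserver

section Definitions

variable (X : Type) [NormedAddCommGroup X] [NormedSpace ℂ X]

/-- The algebra `B(X)` of the bounded linear operators on `X`. -/
def B : Type := X →L[ℂ] X

noncomputable instance instNormedRingB : NormedRing (B X) :=
  (inferInstance : NormedRing (X →L[ℂ] X))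

noncomputable instance instNormedAlgebraB : NormedAlgebra ℂ (B X) :=
  (inferInstance : NormedAlgebra ℂ (X →L[ℂ] X))

variable {X}

/-- The operator as a linear map. -/
def lin (A : B X) : X →ₗ[ℂ] X := (A : X →L[ℂ] X).toLinearMap

/-- `A` has closed range. -/
def HasClosedRange (A : B X) : Prop := IsClosed (Set.range (lin A))

/-- The kernel of `A` is finite-dimensional. -/
def FinKer (A : B X) : Prop := FiniteDimensional ℂ (LinearMap.ker (lin A))

/-- The range of `A` has finite codimension. -/
def FinCoker (A : B X) : Prop := FiniteDimensional ℂ (X ⧸ LinearMap.range (lin A))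

/-- `A` is semi-Fredholm: its range is closed and either its kernel is finite-dimensional or its
range has finite codimension. -/
def IsSemiFredholm (A : B X) : Prop := HasClosedRange A ∧ (FinKer A ∨ FinCoker A)

/-- Upper semi-Fredholm: closed range and finite-dimensional kernel. -/
def IsUpperSemiFredholm (A : B X) : Prop := HasClosedRange A ∧ FinKer A

/-- Lower semi-Fredholm: closed range of finite codimension. -/
def IsLowerSemiFredholm (A : B X) : Prop := HasClosedRange A ∧ FinCoker A

/-- `A` is a compact operator. -/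
def IsCompactOp (A : B X) : Prop := IsCompactOperator (lin A)

/-- `φ` preserves the set `S` in both directions. -/
def PreservesBothWays (S : B X → Prop) (φ : B X → B X) : Prop := ∀ A, S (φ A) ↔ S A

/-- `φ` is a bounded linear bijection (of `B(X)` onto itself). -/
def IsBoundedLinearBijection (φ : B X → B X) : Prop := ∃ ψ : B X ≃L[ℂ] B X, ∀ A, ψ A = φ A

/-- `φ` is surjective up to compact operators. -/
def SurjectiveUpToCompact (φ : B X → B X) : Prop := ∀ A, ∃ C, IsCompactOp (A - φ C)

variable (X) in
/-- The two-sided ideal `K(X)` of the compact operators in `B(X)`. -/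
def compactIdeal : Ideal (B X) where
  carrier := {K | IsCompactOp K}
  add_mem' := fun ha hb => IsCompactOperator.add ha hb
  zero_mem' := isCompactOperator_zero
  smul_mem' := fun A _ hK => IsCompactOperator.clm_comp hK (A : X →L[ℂ] X)

instance : (compactIdeal X).IsTwoSided where
  mul_mem_of_left := fun A hK => IsCompactOperator.comp_clm hK (A : X →L[ℂ] X)

variable (X) in
/-- The Calkin algebra `C(X) = B(X)/K(X)`. -/
def Calkin : Type := B X ⧸ compactIdeal X

noncomputable instance instRingCalkin : Ring (Calkin X) :=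
  (inferInstance : Ring (B X ⧸ compactIdeal X))

noncomputable instance instAlgebraCalkin : Algebra ℂ (Calkin X) :=
  (inferInstance : Algebra ℂ (B X ⧸ compactIdeal X))

variable (X) in
/-- The quotient map `π : B(X) → C(X)`. -/
noncomputable def π : B X →ₐ[ℂ] Calkin X := Ideal.Quotient.mkₐ ℂ (compactIdeal X)

/-- The second half of form (SF): for an invertible `a` of the Calkin algebra and an algebra
automorphism or anti-automorphism `τ` of it, `π (φ A) = a τ(π A)` for all `A`. -/
def InducedForm (φ : B X → B X) : Prop :=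
  ∃ a : (Calkin X)ˣ,
    (∃ τ : Calkin X ≃ₐ[ℂ] Calkin X, ∀ A, π X (φ A) = a * τ (π X A)) ∨
    (∃ τ : Calkin X ≃ₐ[ℂ] (Calkin X)ᵐᵒᵖ, ∀ A, π X (φ A) = a * (τ (π X A)).unop)

/-- `φ` has form (SF). -/
def HasFormSF (φ : B X → B X) : Prop :=
  (∀ K, IsCompactOp K → IsCompactOp (φ K)) ∧ InducedForm φ

/-- `φ` is unital and preserves the upper semi-Fredholm, the lower semi-Fredholm and the
semi-Fredholm operators in both directions. -/
def StrongPreserver (φ : B X → B X) : Prop :=
  φ 1 = 1 ∧ PreservesBothWays IsUpperSemiFredholm φ ∧ PreservesBothWays IsLowerSemiFredholm φ ∧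
    PreservesBothWays IsSemiFredholm φ

end Definitions

/-- The assertion of Q2. -/
def Q2 : Prop :=
  ∀ (X : Type) [NormedAddCommGroup X] [NormedSpace ℂ X] [CompleteSpace X],
    ¬ FiniteDimensional ℂ X → ∀ φ : B X → B X, IsLinearMap ℂ φ →
      PreservesBothWays IsSemiFredholm φ → SurjectiveUpToCompact φ → HasFormSF φ

/-- The space `ℓ^p` of complex sequences. -/
def L (p : ℝ≥0∞) : Type := lp (fun _ : ℕ => ℂ) p

noncomputable instance instNormedL (p : ℝ≥0∞) [Fact (1 ≤ p)] : NormedAddCommGroup (L p) :=
  (inferInstance : NormedAddCommGroup (lp (fun _ : ℕ => ℂ) p))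

noncomputable instance instNormedSpaceL (p : ℝ≥0∞) [Fact (1 ≤ p)] : NormedSpace ℂ (L p) :=
  (inferInstance : NormedSpace ℂ (lp (fun _ : ℕ => ℂ) p))

instance instCompleteL (p : ℝ≥0∞) [Fact (1 ≤ p)] : CompleteSpace (L p) :=
  (inferInstance : CompleteSpace (lp (fun _ : ℕ => ℂ) p))

/-- The `n`-th coordinate. -/
def coord {p : ℝ≥0∞} (y : L p) (n : ℕ) : ℂ := y.1 n

/-- The space `ℓ¹ × ℓ^∞` of pairs of complex sequences, with the maximum norm. -/
def Y : Type := L 1 × L ∞

noncomputable instance instNormedY : NormedAddCommGroup Y :=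
  (inferInstance : NormedAddCommGroup (L 1 × L ∞))

noncomputable instance instNormedSpaceY : NormedSpace ℂ Y :=
  (inferInstance : NormedSpace ℂ (L 1 × L ∞))

instance instCompleteY : CompleteSpace Y := (inferInstance : CompleteSpace (L 1 × L ∞))

/-- The `n`-th coordinate of the first component. -/
def fstCoord (v : Y) (n : ℕ) : ℂ := coord v.1 n

/-- The `n`-th coordinate of the second component. -/
def sndCoord (v : Y) (n : ℕ) : ℂ := coord v.2 n

/-- The vector `(0, δ₀)`. -/
noncomputable def e : Y := ((0 : L 1), (lp.single ∞ 0 (1 : ℂ) : lp (fun _ : ℕ => ℂ) ∞))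

/-- `T(y,z) = (0,y)`. -/
def IsShift (T : B Y) : Prop := ∀ v n, fstCoord (lin T v) n = 0 ∧ sndCoord (lin T v) n = fstCoord v n

/-- The coefficient of `A(0,δ₀)` at the vector `(δ₀,0)`. -/
noncomputable def coeff (A : B Y) : ℂ := fstCoord (lin A e) 0

/-- `K` has rank one. -/
def IsRankOne (K : B Y) : Prop := Module.finrank ℂ (LinearMap.range (lin K)) = 1

open R261.SF in
/-- the map `A ↦ A + f(A) T` as a map on `B(Y)` -/
noncomputable def psi (f : R261.SF.BX →L[ℂ] ℂ) (hf : f T = 0) : B Y ≃L[ℂ] B Y := phi f hf

open R261.SF in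
theorem psi_apply (f : R261.SF.BX →L[ℂ] ℂ) (hf : f T = 0) (A : B Y) : psi f hf A = phi f hf A := rfl

open R261.SF in
theorem up_iff (A : B Y) : IsUpperSemiFredholm A ↔ Up A := Iff.rfl

open R261.SF in
theorem lo_iff (A : B Y) : IsLowerSemiFredholm A ↔ Lo A := Iff.rfl

theorem sf_iff (A : B Y) :
    IsSemiFredholm A ↔ IsUpperSemiFredholm A ∨ IsLowerSemiFredholm A := by
  unfold IsSemiFredholm IsUpperSemiFredholm IsLowerSemiFredholm
  tauto

open R261.SF in
theorem psi_one (f : R261.SF.BX →L[ℂ] ℂ) (hf : f T = 0) (h1 : f 1 = 0) : psi f hf 1 = 1 := by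
  rw [psi_apply]
  have h2 : phi f hf 1 = 1 := by
    rw [phi_apply, h1]
    refine ContinuousLinearMap.ext ?_
    intro v
    show v + (0 : ℂ) • T v = v
    rw [zero_smul, add_zero]
  exact h2

open R261.SF in
theorem psi_strong (f : R261.SF.BX →L[ℂ] ℂ) (hf : f T = 0) (h1 : f 1 = 0) :
    StrongPreserver (psi f hf) := by
  have hup : ∀ A : B Y, IsUpperSemiFredholm (psi f hf A) ↔ IsUpperSemiFredholm A := by
    intro A
    exact up_add_iff A (f A)
  have hlo : ∀ A : B Y, IsLowerSemiFredholm (psi f hf A) ↔ IsLowerSemiFredholm A := by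
    intro A
    exact lo_add_iff A (f A)
  refine ⟨psi_one f hf h1, hup, hlo, ?_⟩
  intro A
  rw [sf_iff, sf_iff, hup, hlo]

open R261.SF in
theorem not_mult' (f : R261.SF.BX →L[ℂ] ℂ) (hT : f T = 0) (hP : f P = 1) :
    ∃ A C : B Y, ¬ IsCompactOp (psi f hT A * psi f hT C - psi f hT (A * C)) ∧
      ¬ IsCompactOp (psi f hT A * psi f hT C - psi f hT (C * A)) :=
  not_mult f hT hP

open R261.SF in
theorem not_inducedForm (f : R261.SF.BX →L[ℂ] ℂ) (h1 : f 1 = 0) (hT : f T = 0)
    (hP : f P = 1) : ¬ InducedForm (psi f hT) := by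
  rintro ⟨a, ha⟩
  obtain ⟨A, C, hAC, hCA⟩ := not_mult' f hT hP
  have hpsi1 := psi_one f hT h1
  have hcomp : ∀ C D : B Y, π Y C = π Y D → IsCompactOp (C - D) := by
    intro C D h
    exact Ideal.Quotient.eq.1 h
  rcases ha with ⟨τ, hτ⟩ | ⟨τ, hτ⟩
  · have ha1 : (a : Calkin Y) = 1 := by
      have h := hτ 1
      rw [hpsi1, map_one, map_one, mul_one] at h
      exact h.symm
    have h2 : ∀ C : B Y, π Y (psi f hT C) = τ (π Y C) := by
      intro C
      rw [hτ, ha1, one_mul]
    apply hAC
    refine hcomp (psi f hT A * psi f hT C) (psi f hT (A * C)) ?_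
    rw [map_mul, h2, h2, h2, map_mul, map_mul]
  · have ha1 : (a : Calkin Y) = 1 := by
      have h := hτ 1
      rw [hpsi1, map_one, map_one, MulOpposite.unop_one, mul_one] at h
      exact h.symm
    have h2 : ∀ C : B Y, π Y (psi f hT C) = (τ (π Y C)).unop := by
      intro C
      rw [hτ, ha1, one_mul]
    apply hCA
    refine hcomp (psi f hT A * psi f hT C) (psi f hT (C * A)) ?_
    rw [map_mul, h2, h2, h2, map_mul, map_mul, MulOpposite.unop_mul]

open R261.SF in
/-- **Negative answer to Q2.**
(1) The assertion of Q2 is false.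
(2) On `Y = ℓ¹ × ℓ^∞` the explicit bounded linear bijection `φ(A) = A + coeff(A) T`, with
`T(y,z) = (0,y)`, is unital, preserves the semi-Fredholm, the upper semi-Fredholm and the lower
semi-Fredholm operators in both directions, and maps some operator of rank one to a noncompact
operator.
(3) There is also such a `φ` for which `φ K` is compact exactly if `K` is, but for which the induced
map of the Calkin algebra is not of the form `x ↦ a τ(x)`. -/
theorem result :
    ¬ Q2 ∧
    (∃ (T : B Y) (φ : B Y → B Y), IsShift T ∧ (∀ A, φ A = A + coeff A • T) ∧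
        IsBoundedLinearBijection φ ∧ StrongPreserver φ ∧
        ∃ K, IsRankOne K ∧ IsCompactOp K ∧ ¬ IsCompactOp (φ K)) ∧
    (∃ φ : B Y → B Y, IsBoundedLinearBijection φ ∧ StrongPreserver φ ∧
        PreservesBothWays IsCompactOp φ ∧ ¬ InducedForm φ) := by
  refine ⟨?_, ?_, ?_⟩
  · intro h
    have hinf : ¬ FiniteDimensional ℂ Y := by
      intro hfd
      have : FiniteDimensional ℂ X := hfd
      have : ProperSpace X := FiniteDimensional.proper ℂ X
      exact T_not_compact
        (isCompactOperator_of_locallyCompactSpace_rng (M₂ := X) (M₃ := X) T)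
    have h2 := h Y hinf (psi f1 f1_T) ((psi f1 f1_T).toLinearEquiv.toLinearMap.isLinear)
      (psi_strong f1 f1_T f1_one).2.2.2 (by
        intro A
        refine ⟨(psi f1 f1_T).symm A, ?_⟩
        have e : A - psi f1 f1_T ((psi f1 f1_T).symm A) = 0 := by
          rw [ContinuousLinearEquiv.apply_symm_apply, sub_self]
        have e2 : IsCompactOp (0 : B Y) := isCompactOperator_zero
        rw [← e] at e2
        exact e2)
    exact phi_K0_not_compact (h2.1 K0 K0_compact)
  · refine ⟨T, psi f1 f1_T, ?_, ?_, ⟨psi f1 f1_T, fun _ => rfl⟩, psi_strong f1 f1_T f1_one, K0, ?_, K0_compact,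
      phi_K0_not_compact⟩
    · intro v n
      exact ⟨rfl, rfl⟩
    · intro A
      rfl
    · show Module.finrank ℂ (LinearMap.range (K0 : X →ₗ[ℂ] X)) = 1
      rw [K0_range]
      apply finrank_span_singleton
      intro h0
      have h1 := norm_dv 0
      rw [h0, norm_zero] at h1
      exact zero_ne_one h1
  · obtain ⟨f, hfK, hf1, hfT, hfP⟩ := exists_f2
    refine ⟨psi f hfT, ⟨psi f hfT, fun _ => rfl⟩, psi_strong f hfT hf1, ?_, not_inducedForm f hf1 hfT hfP⟩
    have key : ∀ (g : R261.SF.BX →L[ℂ] ℂ) (K : R261.SF.BX), g K = 0 → K + g K • T = K := by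
      intro g K hg
      rw [hg]
      refine ContinuousLinearMap.ext ?_
      intro v
      show K v + (0 : ℂ) • T v = K v
      rw [zero_smul, add_zero]
    have hfix : ∀ K : B Y, IsCompactOp K → psi f hfT K = K := by
      intro K hK
      exact key f K (hfK K hK)
    intro K
    constructor
    · intro hK
      have h2 := hfix _ hK
      have h3 := (psi f hfT).injective h2
      rw [h3] at hK
      exact hK
    · intro hK
      rw [hfix K hK]
      exact hK

end Pool.Agent.Results.MP_d583b7_an.SemiFredholmPreserver
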